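import Pool.Agent.KS6_3.ZL.H714R3.ZT.PartC

set_option autoImplicit false

open Polynomial Module IsDedekindDomain FF IntermediateField

namespace Pool.Agent.H714R3.ZT

open Pool.Agent.H134R3.ZT Pool.Agent.H387R3.ZT

theorem dvd_of_map_dvd {k L : Type*} [Field k] [Field L] [Algebra k L] (M : ℕ) (f : k[X])
    (h : (X : L[X]) ^ M ∣ f.map (algebraMap k L)) : (X : k[X]) ^ M ∣ f := by
  rw [X_pow_dvd_iff] at h ⊢
  intro d hd
  have := h d hd
  rw [coeff_map] at this
  exact (map_eq_zero _).1 this

theorem pow_congr_mod {k : Type*} [Field k] (P a b : k[X]) (h : P ∣ a - b) (n : ℕ) :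
    P ∣ a ^ n - b ^ n := h.trans (sub_dvd_pow_sub_pow a b n)

theorem prod_congr_mod {k α : Type*} [Field k] (P : k[X]) (a b : α → k[X]) (s : Finset α)
    (h : ∀ i ∈ s, P ∣ a i - b i) : P ∣ (∏ i ∈ s, a i) - ∏ i ∈ s, b i := by
  classical
  induction s using Finset.induction_on with
  | empty => simp
  | insert i s hi ih =>
    rw [Finset.prod_insert hi, Finset.prod_insert hi]
    have h1 := ih fun j hj => h j (Finset.mem_insert_of_mem hj)
    have h2 := h i (Finset.mem_insert_self _ _)
    have e : a i * ∏ j ∈ s, a j - b i * ∏ j ∈ s, b j =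
      (a i - b i) * ∏ j ∈ s, a j + b i * (∏ j ∈ s, a j - ∏ j ∈ s, b j) := by ring
    rw [e]
    exact dvd_add (h2.mul_right _) (h1.mul_left _)

/-- Task C2. -/
theorem taskC2 : TaskC2 := by
  intro k F _ _ _ _ _ u M hu hfin hsep w hw h hN t c hc
  open scoped algebraAdjoinAdjoin in
  let A := Algebra.adjoin k {u}
  let e := Polynomial.algEquivOfTranscendental k u hu
  have hpid : IsPrincipalIdealRing A := IsPrincipalIdealRing.of_surjective e.toRingEquiv e.surjective
  let U : A := ⟨u, Algebra.self_mem_adjoin_singleton k u⟩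
  have heU : e Polynomial.X = U := Polynomial.algEquivOfTranscendental_apply_X k u hu
  let π : A := U - algebraMap k A t
  have heπ : e (X - C t) = π := by
    rw [map_sub, heU]
    congr 1
    exact e.commutes t
  have hπ : π ≠ 0 := by
    rw [← heπ]
    intro h0
    exact X_sub_C_ne_zero t ((map_eq_zero_iff e e.injective).1 h0)
  let ε : A →ₐ[k] k := (Polynomial.aeval t).comp e.symm.toAlgHom
  have hker : ∀ a, ε a = 0 ↔ π ∣ a := by
    intro a
    change (Polynomial.aeval t) (e.symm a) = 0 ↔ _
    rw [← heπ]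
    constructor
    · intro ha
      have h1 : X - C t ∣ e.symm a := by
        rw [dvd_iff_isRoot, IsRoot.def, ← Polynomial.coe_aeval_eq_eval]
        exact ha
      have h2 := map_dvd e h1
      rwa [AlgEquiv.apply_symm_apply] at h2
    · intro ha
      have h2 := map_dvd e.symm ha
      rw [AlgEquiv.symm_apply_apply, dvd_iff_isRoot, IsRoot.def, ← Polynomial.coe_aeval_eq_eval] at h2
      exact h2
  have hregU : ∀ v : Place k F, v.Reg u → ∀ a : A, v.Reg (algebraMap A F a) := by
    rintro v hv ⟨a, ha⟩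
    change v.Reg a
    induction ha using Algebra.adjoin_induction with
    | mem x hx =>
      rw [Set.mem_singleton_iff] at hx
      subst hx
      exact hv
    | algebraMap r => exact v.reg_const r
    | add x y _ _ hx hy => exact v.reg_add hx hy
    | mul x y _ _ hx hy => exact v.reg_mul hx hy
  have hu0 : u ≠ 0 := by
    rintro rfl
    exact hu isAlgebraic_zero
  obtain ⟨N, hN1, S, hS, hS2⟩ := core (k := k) (F := F) k⟮u⟯ A hsep ε π hπ hker w (by
    intro v hv
    refine hw v ?_
    have := hv U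
    change v.Reg u at this
    exact (v.reg_iff hu0).1 this)
  have hπF : algebraMap A F π = u - algebraMap k F t := rfl
  rw [hπF] at hS
  have hS' : ∀ v, v ∈ S ↔ 0 < v.ord (u - algebraMap k F t) := by
    intro v
    rw [hS]
    refine ⟨fun hh => hh.2, fun hh => ⟨hregU v ?_, hh⟩⟩
    have h1 : v.Reg (u - algebraMap k F t) := Or.inr hh.le
    have h2 := v.reg_add h1 (v.reg_const t)
    rwa [sub_add_cancel] at h2
  have hprod : (∏ᶠ v : Place k F, c v ^ (v.ord (u - algebraMap k F t)).toNat) =
      ∏ v ∈ S, c v ^ (v.ord (u - algebraMap k F t)).toNat := by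
    refine finprod_eq_prod_of_mulSupport_subset _ ?_
    intro v hv
    rw [Function.mem_mulSupport] at hv
    rw [Finset.mem_coe, hS']
    by_contra hcon
    apply hv
    rw [Int.toNat_of_nonpos (not_lt.1 hcon), pow_zero]
  rw [hprod]
  have hd1 : (X : k[X]) ^ M ∣ (∏ v ∈ S, c v ^ (v.ord (u - algebraMap k F t)).toNat) -
      ∏ v ∈ S, LD v w ^ (v.ord (u - algebraMap k F t)).toNat := by
    refine prod_congr_mod _ _ _ S fun v hv => pow_congr_mod _ _ _ ?_ _
    apply dvd_of_map_dvd (L := v.RF)
    rw [Polynomial.map_sub, LD_map]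
    exact hc v ((hS' v).1 hv)
  have hd2 : (X : k[X]) ^ M ∣ N.map (ε : A →+* k) - h := by
    rw [X_pow_dvd_iff]
    intro d hd
    have h1 := hN d hd
    rw [← hN1, coeff_map] at h1
    have h2 : N.coeff d = algebraMap k A (h.coeff d) := by
      apply IsFractionRing.injective A k⟮u⟯
      rw [h1]
      rfl
    rw [coeff_sub, coeff_map, h2]
    have h3 : (ε : A →+* k) (algebraMap k A (h.coeff d)) = h.coeff d := ε.commutes _
    rw [h3, sub_self]
  rw [hS2] at hd2
  have e3 : (∏ v ∈ S, c v ^ (v.ord (u - algebraMap k F t)).toNat) - h =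
      ((∏ v ∈ S, c v ^ (v.ord (u - algebraMap k F t)).toNat) -
        ∏ v ∈ S, LD v w ^ (v.ord (u - algebraMap k F t)).toNat) +
      ((∏ v ∈ S, LD v w ^ (v.ord (u - algebraMap k F t)).toNat) - h) := by ring
  rw [e3]
  exact dvd_add hd1 hd2

end Pool.Agent.H714R3.ZT
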