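import Pool.Agent.KS6_3.ZL.H134R3.ZT.C2a

set_option autoImplicit false

open Polynomial Module

namespace Pool.Agent.H714R3.ZT

open Pool.Agent.H134R3.ZT

section PartA

variable {k A B ι : Type*} [Field k] [CommRing A] [Algebra k A] [CommRing B] [Algebra k B]
  [Algebra A B] [IsScalarTower k A B] (ε : A →ₐ[k] k) (π : A) (hker : ∀ a, ε a = 0 ↔ π ∣ a)
  (bA : Basis ι A B)

include hker in
theorem mk_smul (a : A) (x : B) :
    Ideal.Quotient.mk (Ideal.span {algebraMap A B π}) (a • x) =
      ε a • Ideal.Quotient.mk (Ideal.span {algebraMap A B π}) x := by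
  have h1 : ε (a - algebraMap k A (ε a)) = 0 := by
    rw [map_sub, AlgHom.commutes]; simp
  obtain ⟨c, hc⟩ := (hker _).1 h1
  have h2 : a • x - ε a • x = algebraMap A B π * (c • x) := by
    rw [← IsScalarTower.algebraMap_smul A (ε a) x, ← sub_smul, hc, Algebra.smul_def, Algebra.smul_def,
      map_mul, mul_assoc]
  rw [← sub_eq_zero, ← Ideal.Quotient.mkₐ_eq_mk k, ← map_smul, ← map_sub, Ideal.Quotient.mkₐ_eq_mk,
    Ideal.Quotient.eq_zero_iff_mem, h2]
  exact Ideal.mul_mem_right _ _ (Ideal.mem_span_singleton_self _)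

variable [Fintype ι]

include hker in
theorem mk_repr (x : B) :
    Ideal.Quotient.mk (Ideal.span {algebraMap A B π}) x =
      ∑ i, ε (bA.repr x i) • Ideal.Quotient.mk (Ideal.span {algebraMap A B π}) (bA i) := by
  conv_lhs => rw [← bA.sum_repr x]
  rw [map_sum]
  exact Finset.sum_congr rfl fun i _ => mk_smul ε π hker _ _

include hker in
theorem mk_linearIndependent :
    LinearIndependent k fun i => Ideal.Quotient.mk (Ideal.span {algebraMap A B π}) (bA i) := by
  rw [Fintype.linearIndependent_iff]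
  intro c hc i
  have h1 : Ideal.Quotient.mk (Ideal.span {algebraMap A B π})
      (∑ i, algebraMap k A (c i) • bA i) = 0 := by
    rw [map_sum, ← hc]
    refine Finset.sum_congr rfl fun i _ => ?_
    rw [mk_smul ε π hker, AlgHom.commutes]
    rfl
  rw [Ideal.Quotient.eq_zero_iff_mem, Ideal.mem_span_singleton] at h1
  obtain ⟨y, hy⟩ := h1
  have h2 : bA.repr (∑ i, algebraMap k A (c i) • bA i) i = algebraMap k A (c i) := by
    rw [bA.repr_sum_self]
  rw [hy, ← Algebra.smul_def, map_smul, Finsupp.smul_apply, smul_eq_mul] at h2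
  have h3 := (hker (algebraMap k A (c i))).2 ⟨_, h2.symm⟩
  rw [AlgHom.commutes] at h3
  exact h3

/-- The reduction of a basis. -/
noncomputable def qb : Basis ι k (B ⧸ (Ideal.span {algebraMap A B π})) :=
  Basis.mk (mk_linearIndependent ε π hker bA) (by
    rintro x -
    obtain ⟨x, rfl⟩ := Ideal.Quotient.mk_surjective x
    rw [mk_repr ε π hker bA]
    exact Submodule.sum_mem _ fun i _ => Submodule.smul_mem _ _ (Submodule.subset_span ⟨i, rfl⟩))

theorem qb_apply (i : ι) : qb ε π hker bA i = Ideal.Quotient.mk _ (bA i) := by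
  rw [qb, Basis.mk_apply]

theorem qb_repr (x : B) (i : ι) : (qb ε π hker bA).repr (Ideal.Quotient.mk _ x) i = ε (bA.repr x i) := by
  have : Ideal.Quotient.mk (Ideal.span {algebraMap A B π}) x = ∑ i, ε (bA.repr x i) • qb ε π hker bA i := by
    rw [mk_repr ε π hker bA]
    simp only [qb_apply]
  rw [this, Basis.repr_sum_self]

variable [DecidableEq ι]

include hker in
theorem DM_red [Module.Finite k (B ⧸ Ideal.span {algebraMap A B π})] (w : B[X]) :
    (DM (Algebra.leftMulMatrix bA).toRingHom w).map (ε : A →+* k) =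
      DA k (w.map (Ideal.Quotient.mk (Ideal.span {algebraMap A B π}))) := by
  rw [DA_eq k (qb ε π hker bA), DM_map]
  unfold DM
  congr 2
  rw [Polynomial.map_map]
  congr 1
  refine RingHom.ext fun x => ?_
  refine Matrix.ext fun i j => ?_
  change ε (Algebra.leftMulMatrix bA x i j) = Algebra.leftMulMatrix (qb ε π hker bA) (Ideal.Quotient.mk _ x) i j
  rw [Algebra.leftMulMatrix_eq_repr_mul, Algebra.leftMulMatrix_eq_repr_mul, qb_apply, ← map_mul, qb_repr]

end PartA

end Pool.Agent.H714R3.ZT
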