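import Pool.Agent.KS6_3.ZL.H714R3.ZT.PartB

set_option autoImplicit false

open Polynomial Module IsDedekindDomain FF UniqueFactorizationMonoid

namespace Pool.Agent.H714R3.ZT

open Pool.Agent.H134R3.ZT Pool.Agent.H387R3.ZT

section core

variable {k F : Type} [Field k] [Finite k] [Field F] [Algebra k F] [IsFF k F]
  (K0 A : Type) [Field K0] [CommRing A] [IsDomain A] [IsPrincipalIdealRing A] [Algebra k A]
  [Algebra A K0] [IsFractionRing A K0] [Algebra K0 F] [Algebra A F] [IsScalarTower A K0 F]
  [FiniteDimensional K0 F] [IsScalarTower k A F]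

instance finRF (v : Place k F) : FiniteDimensional k v.RF :=
  haveI : PerfectField k := inferInstance
  inferInstance

/-- The local factor. -/
noncomputable def LD (v : Place k F) (w : F[X]) : k[X] := DA k (redP v w)

theorem LD_map (v : Place k F) (w : F[X]) :
    (LD v w).map (algebraMap k v.RF) = nrmK v w := by
  rw [LD, ← nrm_eq_DA]
  rfl

theorem core (hsep : Algebra.IsSeparable K0 F) (ε : A →ₐ[k] k) (π : A) (hπ : π ≠ 0)
    (hker : ∀ a, ε a = 0 ↔ π ∣ a) (w : F[X])
    (hw : ∀ v : Place k F, (∀ a : A, v.Reg (algebraMap A F a)) → ∀ j, v.Reg (w.coeff j)) :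
    ∃ N : A[X], N.map (algebraMap A K0) = NP K0 w ∧
      ∃ S : Finset (Place k F), (∀ v, v ∈ S ↔ (∀ a : A, v.Reg (algebraMap A F a)) ∧
        0 < v.ord (algebraMap A F π)) ∧
        N.map (ε : A →+* k) = ∏ v ∈ S, LD v w ^ (v.ord (algebraMap A F π)).toNat := by
  classical
  let B := integralClosure A F
  have : IsDedekindDomain B := integralClosure.isDedekindDomain A K0 F
  have : IsFractionRing B F := integralClosure.isFractionRing_of_finite_extension K0 F
  have hfin : Module.Finite A B := IsIntegralClosure.finite A K0 F B
  have hsc : IsScalarTower k B F := by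
    refine IsScalarTower.of_algebraMap_eq fun c => ?_
    rw [IsScalarTower.algebraMap_apply k A B, ← IsScalarTower.algebraMap_apply A B F,
      ← IsScalarTower.algebraMap_apply k A F]
  have hinj : Function.Injective (algebraMap A F) := by
    rw [IsScalarTower.algebraMap_eq A K0 F]
    exact (algebraMap K0 F).injective.comp (IsFractionRing.injective A K0)
  have hinj' : Function.Injective (algebraMap A B) := by
    intro a b h
    apply hinj
    rw [IsScalarTower.algebraMap_apply A B F, IsScalarTower.algebraMap_apply A B F, h]
  have htf : Module.IsTorsionFree A B := Module.isTorsionFree_iff_algebraMap_injective.2 hinj'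
  have hfree : Module.Free A B := inferInstance
  have hloc : IsLocalization (Algebra.algebraMapSubmonoid B (nonZeroDivisors A)) F :=
    IsIntegralClosure.isLocalization_of_isSeparable A K0 F B
  -- lift of w
  have hlift : w ∈ Polynomial.lifts (algebraMap B F) := by
    rw [Polynomial.lifts_iff_coeff_lifts]
    intro j
    refine HeightOneSpectrum.mem_integers_of_valuation_le_one F (w.coeff j) ?_
    intro P
    by_cases h0 : w.coeff j = 0
    · rw [h0, map_zero]; exact zero_le_one
    · rw [← placeOf_nonneg (k := k) (L := F) P h0, ← Place.reg_iff _ h0]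
      refine hw _ ?_ j
      intro a
      rw [IsScalarTower.algebraMap_apply A B F]
      exact placeOf_reg P _
  obtain ⟨wB, hwB⟩ := (Polynomial.mem_lifts _).1 hlift
  let bA := Module.Free.chooseBasis A B
  let b0 := bA.localizationLocalization K0 (nonZeroDivisors A) F
  refine ⟨DM (Algebra.leftMulMatrix bA).toRingHom wB, ?_, ?_⟩
  · have h1 : NP K0 w = DM (Algebra.leftMulMatrix (Module.finBasis K0 F)).toRingHom w := rfl
    rw [h1, ← DA_eq K0 (finBasis K0 F), DA_eq K0 b0, DM_map, ← hwB]
    unfold DM
    rw [Polynomial.map_map]
    congr 3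
    refine RingHom.ext fun x => ?_
    exact Algebra.map_leftMulMatrix_localization (R := A) (Rₘ := K0) (Sₘ := F) (M := nonZeroDivisors A) bA x
  · let πB : B := algebraMap A B π
    have hπB : πB ≠ 0 := fun h => hπ (hinj' (h.trans (map_zero _).symm))
    have hfinq : Module.Finite k (B ⧸ Ideal.span {πB}) := Module.Finite.of_basis (qb ε π hker bA)
    have hne : Ideal.span {πB} ≠ ⊥ := by
      simpa [Ideal.span_singleton_eq_bot] using hπB
    have h1 := DM_red ε π hker bA wB
    have h2 := E_factor wB hne hfinq
    rw [E_eq] at h2
    rw [h1, h2, Finset.prod_multiset_map_count]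
    let m := normalizedFactors (Ideal.span {πB})
    have hP : ∀ P ∈ m.toFinset, P.IsPrime ∧ P ≠ ⊥ ∧ πB ∈ P := by
      intro P hP
      rw [Multiset.mem_toFinset] at hP
      have hprime := prime_of_normalized_factor P hP
      refine ⟨Ideal.isPrime_of_prime hprime, hprime.ne_zero, ?_⟩
      have hdvd := dvd_of_mem_normalizedFactors hP
      exact (Ideal.dvd_span_singleton).1 hdvd
    let g : {P : Ideal B // P ∈ m.toFinset} → Place k F := fun P =>
      placeOf ⟨P.1, (hP P.1 P.2).1, (hP P.1 P.2).2.1⟩
    have hg : Function.Injective g := by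
      intro P Q h
      have := placeOf_injective h
      exact Subtype.ext (congrArg HeightOneSpectrum.asIdeal this)
    have hregA : ∀ P, ∀ a : A, (g P).Reg (algebraMap A F a) := by
      intro P a
      rw [IsScalarTower.algebraMap_apply A B F]
      exact placeOf_reg _ _
    refine ⟨Finset.univ.image g, ?_, ?_⟩
    · intro v
      rw [Finset.mem_image]
      constructor
      · rintro ⟨P, -, rfl⟩
        refine ⟨hregA P, ?_⟩
        have h1 : (g P).red (algebraMap A F π) = 0 := by
          rw [IsScalarTower.algebraMap_apply A B F]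
          exact (placeOf_red_eq_zero _ _).2 (hP P.1 P.2).2.2
        rw [Place.red_eq_zero_iff _ (hregA P π)] at h1
        rcases h1 with h1 | h1
        · exact absurd (hinj (h1.trans (map_zero _).symm)) hπ
        · exact h1
      · rintro ⟨h1, h2⟩
        have hreg : ∀ b : B, v.Reg (algebraMap B F b) := fun b => v.reg_of_isIntegral h1 b.2
        obtain ⟨P, rfl⟩ := exists_placeOf_eq (B := B) v hreg
        have hmem : πB ∈ P.asIdeal := by
          rw [← placeOf_red_eq_zero (k := k) (L := F) P, Place.red_eq_zero_iff _ (hreg _),
            ← IsScalarTower.algebraMap_apply A B F]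
          exact Or.inr h2
        have hPm : P.asIdeal ∈ m.toFinset := by
          rw [Multiset.mem_toFinset, mem_normalizedFactors_iff hne]
          refine ⟨P.prime, ?_⟩
          exact Ideal.dvd_span_singleton.2 hmem
        exact ⟨⟨P.asIdeal, hPm⟩, Finset.mem_univ _, rfl⟩
    · rw [Finset.prod_image (fun a _ b _ h => hg h)]
      rw [← Finset.prod_coe_sort]
      refine Finset.prod_congr rfl fun P _ => ?_
      let P' : HeightOneSpectrum B := ⟨P.1, (hP P.1 P.2).1, (hP P.1 P.2).2.1⟩
      have hfP : Module.Finite k (B ⧸ P'.asIdeal) :=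
        finite_of_le' (I := Ideal.span {πB})
          (by rw [Ideal.span_singleton_le_iff_mem]; exact (hP P.1 P.2).2.2)
      have e1 : E k wB P.1 = LD (g P) w := by
        change E k wB P'.asIdeal = DA k (redP (placeOf (k := k) (L := F) P') w)
        rw [E_eq, ← hwB, redP_eq, DA_equiv]
      have e2 : ((g P).ord (algebraMap A F π)).toNat = Multiset.count P.1 m := by
        have := ord_placeOf_eq_count (k := k) (F := F) P' πB hπB
        change ((placeOf (k := k) (L := F) P').ord (algebraMap A F π)).toNat = _
        rw [IsScalarTower.algebraMap_apply A B F]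
        change ((placeOf (k := k) (L := F) P').ord (algebraMap B F πB)).toNat = _
        rw [this]
        simp only [Int.toNat_natCast]
        rfl
      rw [e1, e2]

end core

end Pool.Agent.H714R3.ZT
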